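import Pool.Agent.H715.TW.Stm
import Pool.Graph.R_seed8.H703R2.Desc.Halve

/-!
# The explicit `2`-descent for `w² = a⁴ + 105 a² d² + 2048 d⁴`
-/

namespace Pool.Agent.H249.TW

open Pool.Agent.H703R2.Desc (coprime_of_prime not_both pow_fac)

theorem fac2833 {x y s : ℤ} (hx : 0 < x) (hy : 0 < y) (hs : 0 < s) (hc : IsCoprime x y)
    (h : x * y = 2833 * s ^ 4) : ∃ A B : ℤ, 0 < A ∧ 0 < B ∧ x + y = A ^ 4 + 2833 * B ^ 4 ∧
      A * B = s ∧ IsCoprime A B := by
  have key : ∀ x y : ℤ, 0 < x → 0 < y → IsCoprime x y → x * y = 2833 * s ^ 4 → 2833 ∣ y →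
      ∃ A B : ℤ, 0 < A ∧ 0 < B ∧ x + y = A ^ 4 + 2833 * B ^ 4 ∧
      A * B = s ∧ IsCoprime A B := by
    rintro x y hx hy hc h ⟨y', rfl⟩
    have hy' : 0 < y' := by omega
    have h1 : x * y' = s ^ 4 := by
      have : 2833 * (x * y') = 2833 * s ^ 4 := by rw [← h]; ring
      exact mul_left_cancel₀ (by norm_num) this
    obtain ⟨A, B, hA, hB, e1, e2, e3, e4⟩ := pow_fac hx hy' hs (IsCoprime.of_mul_right_right hc) h1
    exact ⟨A, B, hA, hB, by rw [e1, e2], e3, e4⟩
  have p : Prime (2833 : ℤ) := Int.prime_iff_natAbs_prime.2 (by norm_num)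
  rcases p.dvd_or_dvd (⟨s ^ 4, h⟩ : (2833 : ℤ) ∣ x * y) with hd | hd
  · obtain ⟨A, B, hh⟩ := key y x hy hx hc.symm (by rw [mul_comm, h]) hd
    rw [add_comm] at hh
    exact ⟨A, B, hh⟩
  · exact key x y hx hy hc h hd

/-- a prime dividing both factors of `2833 s⁴` divides `s` -/
theorem dvd_s_of_both {x y s : ℤ} (h : x * y = 2833 * s ^ 4) {p : ℕ} (hp : p.Prime)
    (h1 : (p : ℤ) ∣ x) (h2 : (p : ℤ) ∣ y) : (p : ℤ) ∣ s := by
  have hpp : Prime (p : ℤ) := Nat.prime_iff_prime_int.1 hp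
  have h3 : (p : ℤ) * p ∣ 2833 * s ^ 4 := by rw [← h]; exact mul_dvd_mul h1 h2
  by_contra hs
  have hs4 : ¬ (p : ℤ) ∣ s ^ 4 := fun h => hs (hpp.dvd_of_dvd_pow h)
  have hcs : IsCoprime ((p : ℤ) * p) (s ^ 4) := by
    have : IsCoprime (p : ℤ) (s ^ 4) := (Prime.coprime_iff_not_dvd hpp).2 hs4
    exact this.mul_left this
  have h4 : (p : ℤ) * p ∣ 2833 := hcs.dvd_of_dvd_mul_right h3
  have h5 : p * p ∣ 2833 := by exact_mod_cast h4
  have h6 : p ∣ 2833 := (Dvd.intro p rfl).trans h5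
  have h7 : p = 2833 := (Nat.prime_dvd_prime_iff_eq hp (by norm_num)).1 h6
  subst h7
  exact absurd h5 (by norm_num)

theorem isCoprime_two {y : ℤ} (hy : Odd y) : IsCoprime (2 : ℤ) y := by
  obtain ⟨k, rfl⟩ := hy
  exact ⟨-k, 1, by ring⟩

theorem fac2048 {x y s : ℤ} (hx : 0 < x) (hy : 0 < y) (hs : 0 < s) (hc : IsCoprime x y)
    (h : x * y = 2048 * s ^ 4) : ∃ A B : ℤ, 0 < A ∧ 0 < B ∧ Odd A ∧ A * B = s ∧ IsCoprime A B ∧
      (x = A ^ 4 ∧ y = 2048 * B ^ 4 ∨ x = 2048 * B ^ 4 ∧ y = A ^ 4) := by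
  have key : ∀ x y : ℤ, 0 < x → 0 < y → IsCoprime x y → x * y = 2048 * s ^ 4 → Odd x →
      ∃ A B : ℤ, 0 < A ∧ 0 < B ∧ Odd A ∧ A * B = s ∧ IsCoprime A B ∧
        (x = A ^ 4 ∧ y = 2048 * B ^ 4) := by
    intro x y hx hy hc h hxo
    have h1 : IsCoprime (2048 : ℤ) x := by
      have : (2048 : ℤ) = 2 ^ 11 := by norm_num
      rw [this]
      exact (isCoprime_two hxo).pow_left
    obtain ⟨y', rfl⟩ := h1.dvd_of_dvd_mul_left (⟨s ^ 4, h⟩ : (2048 : ℤ) ∣ x * y)
    have hy' : 0 < y' := by omega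
    have h1 : x * y' = s ^ 4 := by
      have : 2048 * (x * y') = 2048 * s ^ 4 := by rw [← h]; ring
      exact mul_left_cancel₀ (by norm_num) this
    obtain ⟨A, B, hA, hB, e1, e2, e3, e4⟩ := pow_fac hx hy' hs (IsCoprime.of_mul_right_right hc) h1
    refine ⟨A, B, hA, hB, ?_, e3, e4, e1, by rw [e2]⟩
    rw [e1] at hxo
    exact Int.Odd.of_mul_left (n := A ^ 3) (by rw [← pow_succ']; exact hxo)
  rcases Int.even_or_odd x with he | ho
  · have hyo : Odd y := by
      rcases Int.even_or_odd y with h1 | h1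
      · exact (not_both hc Nat.prime_two he.two_dvd h1.two_dvd).elim
      · exact h1
    obtain ⟨A, B, h1, h2, h3, h4, h5, h6, h7⟩ := key y x hy hx hc.symm (by rw [mul_comm, h]) hyo
    exact ⟨A, B, h1, h2, h3, h4, h5, Or.inr ⟨h7, h6⟩⟩
  · obtain ⟨A, B, h1, h2, h3, h4, h5, h6, h7⟩ := key x y hx hy hc h ho
    exact ⟨A, B, h1, h2, h3, h4, h5, Or.inl ⟨h6, h7⟩⟩

theorem fac32 {x y s : ℤ} (hx : 0 < x) (hy : 0 < y) (hs : 0 < s) (hso : Odd s)
    (hc : ∀ p : ℕ, p.Prime → p ≠ 2 → (p : ℤ) ∣ x → (p : ℤ) ∣ y → False)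
    (h : x * y = 32 * s ^ 4) : ∃ (i j : ℕ) (A B : ℤ), i + j = 5 ∧ 0 < A ∧ 0 < B ∧ Odd A ∧ Odd B ∧
      A * B = s ∧ IsCoprime A B ∧ x = 2 ^ i * A ^ 4 ∧ y = 2 ^ j * B ^ 4 := by
  lift x to ℕ using hx.le
  lift y to ℕ using hy.le
  have hx' : x ≠ 0 := by rintro rfl; simp at hx
  have hy' : y ≠ 0 := by rintro rfl; simp at hy
  obtain ⟨i, m, hm, rfl⟩ := Nat.exists_eq_two_pow_mul_odd hx'
  obtain ⟨j, n, hn, rfl⟩ := Nat.exists_eq_two_pow_mul_odd hy'
  have hmo : Odd (m : ℤ) := by exact_mod_cast hm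
  have hno : Odd (n : ℤ) := by exact_mod_cast hn
  push_cast at h hx hy
  have e : (2 : ℤ) ^ (i + j) * (m * n) = 2 ^ 5 * s ^ 4 := by rw [pow_add]; linarith
  have c1 : IsCoprime ((2 : ℤ) ^ (i + j)) (s ^ 4) := (isCoprime_two hso.pow).pow_left
  have c2 : IsCoprime ((2 : ℤ) ^ 5) ((m : ℤ) * n) := (isCoprime_two (hmo.mul hno)).pow_left
  have d1 : (2 : ℤ) ^ (i + j) ∣ 2 ^ 5 := c1.dvd_of_dvd_mul_right ⟨m * n, e.symm⟩
  have d2 : (2 : ℤ) ^ 5 ∣ 2 ^ (i + j) := c2.dvd_of_dvd_mul_right ⟨s ^ 4, e⟩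
  have hij : i + j = 5 := by
    apply le_antisymm
    · exact (Nat.pow_dvd_pow_iff_le_right (le_refl 2)).1 (by exact_mod_cast d1)
    · exact (Nat.pow_dvd_pow_iff_le_right (le_refl 2)).1 (by exact_mod_cast d2)
  rw [hij] at e
  have hmn : (m : ℤ) * n = s ^ 4 := mul_left_cancel₀ (by norm_num) e
  have hm0 : 0 < (m : ℤ) := by exact_mod_cast hm.pos
  have hn0 : 0 < (n : ℤ) := by exact_mod_cast hn.pos
  have hcop : IsCoprime (m : ℤ) n := by
    apply coprime_of_prime
    intro p hp h1 h2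
    refine hc p hp ?_ ?_ ?_
    · rintro rfl
      exact (Int.not_even_iff_odd.2 hmo) (even_iff_two_dvd.2 h1)
    · push_cast; exact Dvd.dvd.mul_left h1 _
    · push_cast; exact Dvd.dvd.mul_left h2 _
  obtain ⟨A, B, hA, hB, e1, e2, e3, e4⟩ := pow_fac hm0 hn0 hs hcop hmn
  refine ⟨i, j, A, B, hij, hA, hB, ?_, ?_, e3, e4, by push_cast; rw [e1], by push_cast; rw [e2]⟩
  · rw [e1] at hmo
    exact Int.Odd.of_mul_left (n := A ^ 3) (by rw [← pow_succ']; exact hmo)
  · rw [e2] at hno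
    exact Int.Odd.of_mul_left (n := B ^ 3) (by rw [← pow_succ']; exact hno)

/-- the conclusion -/
def Cc (a d : ℤ) : Prop := ∃ k k' A B v c : ℤ, (k = 1 ∧ k' = 2048 ∨ k = -2 ∧ k' = -1024) ∧
  0 < A ∧ 0 < B ∧ 0 < v ∧ IsCoprime A B ∧
  v ^ 2 = k * A ^ 4 + 105 * A ^ 2 * B ^ 2 + k' * B ^ 4 ∧
    0 < c ∧ c ≤ 1024 ∧ 2 * A * B * v = c * d ∧
    (k * A ^ 4 - k' * B ^ 4 = c * a ∨ k * A ^ 4 - k' * B ^ 4 = -(c * a))

theorem mk {a d r u y : ℤ} (k k' m : ℤ) (hk : k = 1 ∧ k' = 2048 ∨ k = -2 ∧ k' = -1024)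
    (hm : m = 2 ∨ m = 4 ∨ m = 8 ∨ m = 16) (hu : 0 < u) (hy : 0 < y) (hr : 0 < r)
    (huy : IsCoprime u y) (hyo : Odd y) (hd : d = r * (u * y))
    (h1 : m ^ 2 * r ^ 2 = k * m ^ 4 * u ^ 4 + 105 * m ^ 2 * u ^ 2 * y ^ 2 + k' * y ^ 4)
    (h2 : k * m ^ 4 * u ^ 4 - k' * y ^ 4 = 2 * m ^ 2 * a ∨
      k * m ^ 4 * u ^ 4 - k' * y ^ 4 = -(2 * m ^ 2 * a)) : Cc a d := by
  have hm0 : 0 < m := by rcases hm with h | h | h | h <;> omega
  have hmy : IsCoprime m y := by
    have h : ∃ n : ℕ, m = 2 ^ n := by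
      rcases hm with h | h | h | h
      · exact ⟨1, by rw [h]; norm_num⟩
      · exact ⟨2, by rw [h]; norm_num⟩
      · exact ⟨3, by rw [h]; norm_num⟩
      · exact ⟨4, by rw [h]; norm_num⟩
    obtain ⟨n, rfl⟩ := h
    exact (isCoprime_two hyo).pow_left
  refine ⟨k, k', m * u, y, m * r, 2 * m ^ 2, hk, mul_pos hm0 hu, hy, mul_pos hm0 hr,
    hmy.mul_left huy, ?_, by positivity, ?_, ?_, ?_⟩
  · linear_combination h1
  · rcases hm with h | h | h | h <;> rw [h] <;> norm_num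
  · rw [hd]; ring
  · rcases h2 with h | h
    · left; linear_combination h
    · right; linear_combination h

/-- the case of odd `d` -/
theorem caseOdd {a d r s : ℤ} (ha : 0 < a) (hr : 0 < r) (hs : 0 < s) (hro : Odd r) (hso : Odd s)
    (hc : IsCoprime r s) (hd : d = r * s)
    (h : 4 * a ^ 2 + 210 * d ^ 2 = r ^ 4 + 2833 * s ^ 4) : Cc a d := by
  obtain ⟨r1, hr1⟩ := hro
  obtain ⟨s1, hs1⟩ := hso
  obtain ⟨r2, hr2⟩ := Int.even_mul_succ_self r1
  obtain ⟨s2, hs2⟩ := Int.even_mul_succ_self s1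
  -- r² = 8 r2 + 1
  have er : r ^ 2 = 8 * r2 + 1 := by rw [hr1]; linear_combination 4 * hr2
  have es : s ^ 2 = 8 * s2 + 1 := by rw [hs1]; linear_combination 4 * hs2
  have ht : r ^ 2 - 105 * s ^ 2 = 8 * (r2 - 105 * s2 - 13) := by rw [er, es]; ring
  obtain ⟨t, htt⟩ : ∃ t : ℤ, t = r2 - 105 * s2 - 13 := ⟨_, rfl⟩
  rw [← htt] at ht
  have e1 : a ^ 2 = 16 * (t ^ 2 - 128 * s ^ 4) := by
    have : 4 * a ^ 2 = 4 * (16 * (t ^ 2 - 128 * s ^ 4)) := by
      rw [hd] at h
      linear_combination h + (r ^ 2 - 105 * s ^ 2 + 8 * t) * ht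
    exact mul_left_cancel₀ (by norm_num) this
  obtain ⟨a1, ha1⟩ : (4 : ℤ) ∣ a := by
    have : (4 : ℤ) ^ 2 ∣ a ^ 2 := ⟨t ^ 2 - 128 * s ^ 4, by rw [e1]; norm_num⟩
    exact (Int.pow_dvd_pow_iff two_ne_zero).1 this
  have e2 : a1 ^ 2 = t ^ 2 - 128 * s ^ 4 := by
    have : 16 * a1 ^ 2 = 16 * (t ^ 2 - 128 * s ^ 4) := by rw [← e1, ha1]; ring
    exact mul_left_cancel₀ (by norm_num) this
  -- parity
  obtain ⟨x, hx⟩ : ∃ x : ℤ, t + a1 = 2 * x := by
    have h1 : Even (t ^ 2 - a1 ^ 2) := by rw [e2]; exact ⟨64 * s ^ 4, by ring⟩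
    have h2 : t ^ 2 - a1 ^ 2 = (t + a1) * (t - a1) := by ring
    rw [h2, Int.even_mul] at h1
    have h3 : Even (t + a1) := by
      rcases h1 with h1 | h1
      · exact h1
      · rw [Int.even_sub] at h1; rw [Int.even_add]; exact h1
    obtain ⟨x, hx⟩ := h3
    exact ⟨x, by rw [hx]; ring⟩
  obtain ⟨y, hy⟩ : ∃ y : ℤ, y = t - x := ⟨_, rfl⟩
  have exy : x * y = 32 * s ^ 4 := by
    have : 4 * (x * y) = 4 * (32 * s ^ 4) := by
      have h2x : 2 * y = t - a1 := by linarith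
      calc 4 * (x * y) = (2 * x) * (2 * y) := by ring
        _ = (t + a1) * (t - a1) := by rw [hx, h2x]
        _ = _ := by linear_combination -e2
    exact mul_left_cancel₀ (by norm_num) this
  have ea : a = 4 * (x - y) := by rw [ha1, hy]; linarith
  have ert : r ^ 2 = 8 * (x + y) + 105 * s ^ 2 := by rw [hy]; linarith
  have hcop : ∀ p : ℕ, p.Prime → p ≠ 2 → (p : ℤ) ∣ x → (p : ℤ) ∣ y → False := by
    intro p hp hp2 h1 h2
    have hpp : Prime (p : ℤ) := Nat.prime_iff_prime_int.1 hp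
    have h3 : (p : ℤ) ∣ 32 * s ^ 4 := by rw [← exy]; exact Dvd.dvd.mul_right h1 y
    have h4 : (p : ℤ) ∣ s := by
      rcases hpp.dvd_or_dvd h3 with h4 | h4
      · exfalso
        have h5 : (p : ℤ) ∣ 2 ^ 5 := by norm_num; exact h4
        have h6 : (p : ℤ) ∣ 2 := hpp.dvd_of_dvd_pow h5
        have h7 : p ∣ 2 := by exact_mod_cast h6
        exact hp2 ((Nat.prime_dvd_prime_iff_eq hp Nat.prime_two).1 h7)
      · exact hpp.dvd_of_dvd_pow h4
    have h5 : (p : ℤ) ∣ r ^ 2 := by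
      rw [ert]
      exact dvd_add (Dvd.dvd.mul_left (dvd_add h1 h2) 8)
        (Dvd.dvd.mul_left (Dvd.dvd.pow h4 two_ne_zero) 105)
    exact not_both hc hp (hpp.dvd_of_dvd_pow h5) h4
  have hso' : Odd s := ⟨s1, hs1⟩
  have hs4 : 0 < s ^ 4 := by positivity
  rcases lt_trichotomy x 0 with hx0 | hx0 | hx0
  · -- negative
    have hy0 : y < 0 := by
      by_contra hcon
      push Not at hcon
      nlinarith [mul_nonneg (neg_nonneg.2 hx0.le) hcon]
    obtain ⟨i, j, u, v, hij, hu, hv, huo, hvo, e3, e4, e5, e6⟩ := fac32 (x := -x) (y := -y)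
      (by linarith) (by linarith) hs hso'
      (fun p hp h2 h3 h4 => hcop p hp h2 ((dvd_neg).1 h3) ((dvd_neg).1 h4)) (by rw [neg_mul_neg, exy])
    have e5' : x = -(2 ^ i * u ^ 4) := by rw [← e5, neg_neg]
    have e6' : y = -(2 ^ j * v ^ 4) := by rw [← e6, neg_neg]
    rw [e5', e6', ← e3] at ert
    rw [e5', e6'] at ea
    have hd1 : d = r * (u * v) := by rw [hd, e3]
    have hd2 : d = r * (v * u) := by rw [hd, ← e3, mul_comm u v]
    have hi : i ≤ 5 := by omega
    interval_cases i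
    · obtain rfl : j = 5 := by omega
      exact mk (-2) (-1024) 2 (Or.inr ⟨rfl, rfl⟩) (by norm_num) hu hv hr e4 hvo hd1
        (by linear_combination 4 * ert) (Or.inl (by linear_combination -8 * ea))
    · obtain rfl : j = 4 := by omega
      exact mk (-2) (-1024) 8 (Or.inr ⟨rfl, rfl⟩) (by norm_num) hv hu hr e4.symm huo hd2
        (by linear_combination 64 * ert) (Or.inr (by linear_combination 128 * ea))
    · obtain rfl : j = 3 := by omega
      exact mk (-2) (-1024) 4 (Or.inr ⟨rfl, rfl⟩) (by norm_num) hu hv hr e4 hvo hd1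
        (by linear_combination 16 * ert) (Or.inl (by linear_combination -32 * ea))
    · obtain rfl : j = 2 := by omega
      exact mk (-2) (-1024) 4 (Or.inr ⟨rfl, rfl⟩) (by norm_num) hv hu hr e4.symm huo hd2
        (by linear_combination 16 * ert) (Or.inr (by linear_combination 32 * ea))
    · obtain rfl : j = 1 := by omega
      exact mk (-2) (-1024) 8 (Or.inr ⟨rfl, rfl⟩) (by norm_num) hu hv hr e4 hvo hd1
        (by linear_combination 64 * ert) (Or.inl (by linear_combination -128 * ea))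
    · obtain rfl : j = 0 := by omega
      exact mk (-2) (-1024) 2 (Or.inr ⟨rfl, rfl⟩) (by norm_num) hv hu hr e4.symm huo hd2
        (by linear_combination 4 * ert) (Or.inr (by linear_combination 8 * ea))
  · exfalso
    rw [hx0, zero_mul] at exy
    linarith
  · have hy0 : 0 < y := by
      have : 0 < x * y := by rw [exy]; positivity
      exact (mul_pos_iff_of_pos_left hx0).1 this
    obtain ⟨i, j, u, v, hij, hu, hv, huo, hvo, e3, e4, e5, e6⟩ := fac32 hx0 hy0 hs hso' hcop exy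
    rw [e5, e6, ← e3] at ert
    rw [e5, e6] at ea
    have hd1 : d = r * (u * v) := by rw [hd, e3]
    have hd2 : d = r * (v * u) := by rw [hd, ← e3, mul_comm u v]
    have hi : i ≤ 5 := by omega
    interval_cases i
    · obtain rfl : j = 5 := by omega
      exact mk 1 2048 16 (Or.inl ⟨rfl, rfl⟩) (by norm_num) hv hu hr e4.symm huo hd2
        (by linear_combination 256 * ert) (Or.inr (by linear_combination 512 * ea))
    · obtain rfl : j = 4 := by omega
      exact mk 1 2048 4 (Or.inl ⟨rfl, rfl⟩) (by norm_num) hu hv hr e4 hvo hd1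
        (by linear_combination 16 * ert) (Or.inl (by linear_combination -32 * ea))
    · obtain rfl : j = 3 := by omega
      exact mk 1 2048 8 (Or.inl ⟨rfl, rfl⟩) (by norm_num) hv hu hr e4.symm huo hd2
        (by linear_combination 64 * ert) (Or.inr (by linear_combination 128 * ea))
    · obtain rfl : j = 2 := by omega
      exact mk 1 2048 8 (Or.inl ⟨rfl, rfl⟩) (by norm_num) hu hv hr e4 hvo hd1
        (by linear_combination 64 * ert) (Or.inl (by linear_combination -128 * ea))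
    · obtain rfl : j = 1 := by omega
      exact mk 1 2048 4 (Or.inl ⟨rfl, rfl⟩) (by norm_num) hv hu hr e4.symm huo hd2
        (by linear_combination 16 * ert) (Or.inr (by linear_combination 32 * ea))
    · obtain rfl : j = 0 := by omega
      exact mk 1 2048 16 (Or.inl ⟨rfl, rfl⟩) (by norm_num) hu hv hr e4 hvo hd1
        (by linear_combination 256 * ert) (Or.inl (by linear_combination -512 * ea))

/-- the case of even `d` -/
theorem caseEven {a d r s : ℤ} (ha : 0 < a) (hr : 0 < r) (hs : 0 < s) (hao : Odd a)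
    (hc : IsCoprime r s) (hd : d = 2 * (r * s))
    (h : a ^ 2 + 210 * (r * s) ^ 2 = r ^ 4 + 2833 * s ^ 4) : Cc a d := by
  obtain ⟨t, ht⟩ : ∃ t : ℤ, t = r ^ 2 - 105 * s ^ 2 := ⟨_, rfl⟩
  have e1 : a ^ 2 = t ^ 2 - 8192 * s ^ 4 := by rw [ht]; linear_combination h
  obtain ⟨x, hx⟩ : ∃ x : ℤ, t + a = 2 * x := by
    have h1 : Even (t ^ 2 - a ^ 2) := by rw [e1]; exact ⟨4096 * s ^ 4, by ring⟩
    have h2 : t ^ 2 - a ^ 2 = (t + a) * (t - a) := by ring
    rw [h2, Int.even_mul] at h1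
    have h3 : Even (t + a) := by
      rcases h1 with h1 | h1
      · exact h1
      · rw [Int.even_sub] at h1; rw [Int.even_add]; exact h1
    obtain ⟨x, hx⟩ := h3
    exact ⟨x, by rw [hx]; ring⟩
  obtain ⟨y, hy⟩ : ∃ y : ℤ, y = t - x := ⟨_, rfl⟩
  have exy : x * y = 2048 * s ^ 4 := by
    have : 4 * (x * y) = 4 * (2048 * s ^ 4) := by
      have h2x : 2 * y = t - a := by linarith
      calc 4 * (x * y) = (2 * x) * (2 * y) := by ring
        _ = (t + a) * (t - a) := by rw [hx, h2x]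
        _ = _ := by linear_combination -e1
    exact mul_left_cancel₀ (by norm_num) this
  have ea : a = x - y := by rw [hy]; linarith
  have ert : r ^ 2 = x + y + 105 * s ^ 2 := by rw [hy]; linarith
  have hcop : IsCoprime x y := by
    apply coprime_of_prime
    intro p hp h1 h2
    have hpp : Prime (p : ℤ) := Nat.prime_iff_prime_int.1 hp
    have h3 : (p : ℤ) ∣ 2048 * s ^ 4 := by rw [← exy]; exact Dvd.dvd.mul_right h1 y
    have h4 : (p : ℤ) ∣ s := by
      rcases hpp.dvd_or_dvd h3 with h4 | h4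
      · exfalso
        have h5 : (p : ℤ) ∣ 2 ^ 11 := by norm_num; exact h4
        have h6 : (p : ℤ) ∣ 2 := hpp.dvd_of_dvd_pow h5
        have h7 : p ∣ 2 := by exact_mod_cast h6
        have h8 : p = 2 := (Nat.prime_dvd_prime_iff_eq hp Nat.prime_two).1 h7
        subst h8
        have h9 : Even a := by rw [ea]; exact even_iff_two_dvd.2 (dvd_sub h1 h2)
        exact (Int.not_even_iff_odd.2 hao) h9
      · exact hpp.dvd_of_dvd_pow h4
    have h5 : (p : ℤ) ∣ r ^ 2 := by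
      rw [ert]
      exact dvd_add (dvd_add h1 h2) (Dvd.dvd.mul_left (Dvd.dvd.pow h4 two_ne_zero) 105)
    exact not_both hc hp (hpp.dvd_of_dvd_pow h5) h4
  have hs4 : 0 < s ^ 4 := by positivity
  have c32 : ∀ u v : ℤ, Odd u → IsCoprime u v → IsCoprime (32 * v) u := by
    intro u v hu huv
    have : (32 : ℤ) = 2 ^ 5 := by norm_num
    rw [this]
    exact ((isCoprime_two hu).pow_left).mul_left huv.symm
  rcases lt_trichotomy x 0 with hx0 | hx0 | hx0
  · have hy0 : y < 0 := by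
      by_contra hcon
      push Not at hcon
      nlinarith [mul_nonneg (neg_nonneg.2 hx0.le) hcon]
    obtain ⟨u, v, hu, hv, huo, e3, e4, e5⟩ := fac2048 (x := -x) (y := -y)
      (by linarith) (by linarith) hs hcop.neg_neg (by rw [neg_mul_neg, exy])
    rcases e5 with ⟨e5, e6⟩ | ⟨e5, e6⟩
    · have e5' : x = -(u ^ 4) := by rw [← e5, neg_neg]
      have e6' : y = -(2048 * v ^ 4) := by rw [← e6, neg_neg]
      rw [e5', e6', ← e3] at ert
      rw [e5', e6'] at ea
      refine ⟨-2, -1024, 32 * v, u, 32 * r, 1024, Or.inr ⟨rfl, rfl⟩, by positivity, hu,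
        by positivity, c32 u v huo e4, ?_, by norm_num, by norm_num, ?_, Or.inr ?_⟩
      · linear_combination 1024 * ert
      · rw [hd, ← e3]; ring
      · linear_combination 1024 * ea
    · have e5' : x = -(2048 * v ^ 4) := by rw [← e5, neg_neg]
      have e6' : y = -(u ^ 4) := by rw [← e6, neg_neg]
      rw [e5', e6', ← e3] at ert
      rw [e5', e6'] at ea
      refine ⟨-2, -1024, 32 * v, u, 32 * r, 1024, Or.inr ⟨rfl, rfl⟩, by positivity, hu,
        by positivity, c32 u v huo e4, ?_, by norm_num, by norm_num, ?_, Or.inl ?_⟩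
      · linear_combination 1024 * ert
      · rw [hd, ← e3]; ring
      · linear_combination -1024 * ea
  · exfalso
    rw [hx0, zero_mul] at exy
    linarith
  · have hy0 : 0 < y := by
      have : 0 < x * y := by rw [exy]; positivity
      exact (mul_pos_iff_of_pos_left hx0).1 this
    obtain ⟨u, v, hu, hv, huo, e3, e4, e5⟩ := fac2048 hx0 hy0 hs hcop exy
    rcases e5 with ⟨e5, e6⟩ | ⟨e5, e6⟩
    · rw [e5, e6, ← e3] at ert
      rw [e5, e6] at ea
      refine ⟨1, 2048, u, v, r, 1, Or.inl ⟨rfl, rfl⟩, hu, hv, hr, e4, ?_, by norm_num, by norm_num,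
        ?_, Or.inl ?_⟩
      · linear_combination ert
      · rw [hd, ← e3]; ring
      · linear_combination -ea
    · rw [e5, e6, ← e3] at ert
      rw [e5, e6] at ea
      refine ⟨1, 2048, u, v, r, 1, Or.inl ⟨rfl, rfl⟩, hu, hv, hr, e4, ?_, by norm_num, by norm_num,
        ?_, Or.inr ?_⟩
      · linear_combination ert
      · rw [hd, ← e3]; ring
      · linear_combination ea

/-- HALVE -/
theorem halve : Pool.Agent.H715.TW.S_HALVE := by
  intro a d w ha hd hw hcad h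
  change Cc a d
  rcases Int.even_or_odd d with hde | hdo
  · -- even
    have hao : Odd a := by
      rcases Int.even_or_odd a with h1 | h1
      · exact (not_both hcad Nat.prime_two h1.two_dvd hde.two_dvd).elim
      · exact h1
    obtain ⟨e, he⟩ := hde
    have he' : d = 2 * e := by omega
    have he0 : 0 < e := by omega
    have hwo : Odd w := by
      rcases Int.even_or_odd w with h1 | h1
      · exfalso
        have h2 : Even (w ^ 2) := h1.pow_of_ne_zero two_ne_zero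
        have h3 : Odd (w ^ 2) := by
          rw [h, he']
          have : a ^ 4 + 105 * a ^ 2 * (2 * e) ^ 2 + 2048 * (2 * e) ^ 4 =
            a ^ 4 + 2 * (210 * a ^ 2 * e ^ 2 + 16384 * e ^ 4) := by ring
          rw [this]
          exact hao.pow.add_even (even_two_mul _)
        exact (Int.not_even_iff_odd.2 h3) h2
      · exact h1
    obtain ⟨x, hx⟩ : ∃ x : ℤ, a ^ 2 + 210 * e ^ 2 + w = 2 * x := by
      have h1 : Odd (a ^ 2 + 210 * e ^ 2) := by
        have : a ^ 2 + 210 * e ^ 2 = a ^ 2 + 2 * (105 * e ^ 2) := by ring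
        rw [this]
        exact hao.pow.add_even (even_two_mul _)
      obtain ⟨x, hx⟩ := h1.add_odd hwo
      exact ⟨x, by rw [hx]; ring⟩
    obtain ⟨y, hy⟩ : ∃ y : ℤ, y = a ^ 2 + 210 * e ^ 2 - x := ⟨_, rfl⟩
    have exy : x * y = 2833 * e ^ 4 := by
      have : 4 * (x * y) = 4 * (2833 * e ^ 4) := by
        have h2x : 2 * y = a ^ 2 + 210 * e ^ 2 - w := by linarith
        rw [he'] at h
        calc 4 * (x * y) = (2 * x) * (2 * y) := by ring
          _ = (a ^ 2 + 210 * e ^ 2 + w) * (a ^ 2 + 210 * e ^ 2 - w) := by rw [hx, h2x]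
          _ = _ := by linear_combination -h
      exact mul_left_cancel₀ (by norm_num) this
    have hx0 : 0 < x := by
      have : 0 < 2 * x := by rw [← hx]; positivity
      linarith
    have hy0 : 0 < y := by
      have : 0 < x * y := by rw [exy]; positivity
      exact (mul_pos_iff_of_pos_left hx0).1 this
    have hcae : IsCoprime a e := by rw [he'] at hcad; exact IsCoprime.of_mul_right_right hcad
    have hcop : IsCoprime x y := by
      apply coprime_of_prime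
      intro p hp h1 h2
      have hpp : Prime (p : ℤ) := Nat.prime_iff_prime_int.1 hp
      have h3 := dvd_s_of_both exy hp h1 h2
      have h4 : (p : ℤ) ∣ a ^ 2 := by
        have : a ^ 2 = x + y - 210 * e ^ 2 := by rw [hy]; ring
        rw [this]
        exact dvd_sub (dvd_add h1 h2) (Dvd.dvd.mul_left (Dvd.dvd.pow h3 two_ne_zero) 210)
      exact not_both hcae hp (hpp.dvd_of_dvd_pow h4) h3
    obtain ⟨r, s, hr, hs, e1, e2, e3⟩ := fac2833 hx0 hy0 he0 hcop exy
    refine caseEven ha hr hs hao e3 (by rw [he', e2]) ?_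
    rw [← e1, e2, hy]; ring
  · -- odd
    obtain ⟨x, hx⟩ : ∃ x : ℤ, x = 2 * a ^ 2 + 105 * d ^ 2 + 2 * w := ⟨_, rfl⟩
    obtain ⟨y, hy⟩ : ∃ y : ℤ, y = 2 * a ^ 2 + 105 * d ^ 2 - 2 * w := ⟨_, rfl⟩
    have exy : x * y = 2833 * d ^ 4 := by rw [hx, hy]; linear_combination -4 * h
    have hx0 : 0 < x := by rw [hx]; positivity
    have hy0 : 0 < y := by
      have : 0 < x * y := by rw [exy]; positivity
      exact (mul_pos_iff_of_pos_left hx0).1 this
    have hcop : IsCoprime x y := by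
      apply coprime_of_prime
      intro p hp h1 h2
      have hpp : Prime (p : ℤ) := Nat.prime_iff_prime_int.1 hp
      have h3 := dvd_s_of_both exy hp h1 h2
      have h4 : (p : ℤ) ∣ 2 ^ 2 * a ^ 2 := by
        have : 2 ^ 2 * a ^ 2 = x + y - 210 * d ^ 2 := by rw [hx, hy]; ring
        rw [this]
        exact dvd_sub (dvd_add h1 h2) (Dvd.dvd.mul_left (Dvd.dvd.pow h3 two_ne_zero) 210)
      rcases hpp.dvd_or_dvd h4 with h5 | h5
      · have h6 : (p : ℤ) ∣ 2 := hpp.dvd_of_dvd_pow h5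
        have h7 : p ∣ 2 := by exact_mod_cast h6
        have h8 : p = 2 := (Nat.prime_dvd_prime_iff_eq hp Nat.prime_two).1 h7
        subst h8
        exact (Int.not_even_iff_odd.2 hdo) (even_iff_two_dvd.2 h3)
      · exact not_both hcad hp (hpp.dvd_of_dvd_pow h5) h3
    obtain ⟨r, s, hr, hs, e1, e2, e3⟩ := fac2833 hx0 hy0 hd hcop exy
    rw [← e2, Int.odd_mul] at hdo
    refine caseOdd ha hr hs hdo.1 hdo.2 e3 e2.symm ?_
    rw [← e1, hx, hy]; ring

end Pool.Agent.H249.TW
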